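import Pool.Agent.P.MP_e24c78_co.Sphere

set_option autoImplicit false

namespace Pool.Agent.P.MP_e24c78_co

open Finset

/-- bit mask of a list of vertices -/
def msk : List ℕ → ℕ
  | [] => 0
  | i :: l => 2 ^ i ||| msk l

lemma testBit_msk (l : List ℕ) (i : ℕ) : (msk l).testBit i = decide (i ∈ l) := by
  induction l with
  | nil => simp [msk]
  | cons a l ih =>
    simp only [msk, Nat.testBit_or, ih, Nat.testBit_two_pow, List.mem_cons, Bool.decide_or]
    congr 1
    simp [eq_comm]

/-- the vertex set of a mask -/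
def toSet (n F : ℕ) : Finset (Fin n) := univ.filter fun i => F.testBit i

lemma mem_toSet {n F : ℕ} {i : Fin n} : i ∈ toSet n F ↔ F.testBit i = true := by simp [toSet]

lemma mem_toSet_msk {n : ℕ} {l : List ℕ} {i : Fin n} : i ∈ toSet n (msk l) ↔ (i : ℕ) ∈ l := by
  simp [mem_toSet, testBit_msk]

/-- mask inclusion -/
def sub (A F : ℕ) : Bool := Nat.beq (A &&& F) A

lemma sub_iff (A F : ℕ) : sub A F = true ↔ ∀ i, A.testBit i = true → F.testBit i = true := by
  unfold sub
  rw [Nat.beq_eq]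
  constructor
  · intro h i hi
    rw [← h, Nat.testBit_and] at hi
    simp only [Bool.and_eq_true] at hi
    exact hi.2
  · intro h
    apply Nat.eq_of_testBit_eq
    intro i
    rw [Nat.testBit_and]
    cases hA : A.testBit i
    · simp
    · simp [h i hA]

lemma sub_toSet {n A F : ℕ} (h : sub A F = true) : toSet n A ⊆ toSet n F :=
  fun _ hi => mem_toSet.2 ((sub_iff _ _).1 h _ (mem_toSet.1 hi))

lemma sub_msk_iff {n F : ℕ} {l : List ℕ} (hl : ∀ a ∈ l, a < n) :
    sub (msk l) F = true ↔ toSet n (msk l) ⊆ toSet n F := by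
  refine ⟨sub_toSet, fun h => (sub_iff _ _).2 fun i hi => ?_⟩
  have hi' : i ∈ l := by simpa [testBit_msk] using hi
  exact mem_toSet.1 (h (x := ⟨i, hl i hi'⟩) (mem_toSet.2 hi))

/-- complex of a list of masks -/
def cx (n : ℕ) (L : List ℕ) : Set (Finset (Fin n)) := {F | ∃ m ∈ L, F = toSet n m}

/-- new facets -/
def newF (A B : List ℕ) : List ℕ := A.map fun a => msk (A.filter (fun x => !Nat.beq x a) ++ B)

/-- result of a flip -/
def flipL (L A B : List ℕ) : List ℕ := newF A B ++ L.filter fun F => !sub (msk A) F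

/-- validity of a flip -/
def okL (n : ℕ) (L A B : List ℕ) : Bool :=
  !A.isEmpty && !B.isEmpty && A.all (fun a => Nat.blt a n && B.all fun b => !Nat.beq a b) &&
    B.all (fun a => Nat.blt a n) &&
    L.all (fun F => !sub (msk B) F) &&
    (L.filter fun F => sub (msk A) F).all (fun F => sub F (msk (A ++ B))) &&
    (newF B A).all fun G => (L.filter fun F => sub (msk A) F).any fun F => Nat.beq F G

lemma toSet_new {n : ℕ} (A B : List ℕ) (a : Fin n) :
    toSet n (msk (A.filter (fun x => !Nat.beq x a) ++ B))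
      = (toSet n (msk A)).erase a ∪ toSet n (msk B) := by
  ext i
  simp only [mem_toSet_msk, List.mem_append, List.mem_filter, mem_union, mem_erase,
    Bool.not_eq_true', ne_eq, Fin.ext_iff]
  have : Nat.beq i a = false ↔ ¬ (i : ℕ) = a := by
    rw [← Nat.beq_eq, Bool.not_eq_true]
  rw [this]; tauto

lemma step_homeo (n : ℕ) (L A B : List ℕ) (h : okL n L A B = true) :
    Nonempty (real (cx n L) ≃ₜ real (cx n (flipL L A B))) := by
  simp only [okL, Bool.and_eq_true, List.all_eq_true, Bool.not_eq_true', List.any_eq_true,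
    Nat.blt_eq, Nat.beq_eq, List.mem_filter] at h
  obtain ⟨⟨⟨⟨⟨⟨hA, hB⟩, hAn⟩, hBn⟩, h1⟩, h2⟩, h3⟩ := h
  have hAn' : ∀ a ∈ A, a < n := fun a ha => (hAn a ha).1
  have ne : ∀ l : List ℕ, l.isEmpty = false → (∀ a ∈ l, a < n) → (toSet n (msk l)).Nonempty := by
    intro l hl hn
    cases l with
    | nil => simp at hl
    | cons a l => exact ⟨⟨a, hn a (by simp)⟩, mem_toSet_msk.2 (by simp)⟩
  refine flip_homeo _ _ (toSet n (msk A)) (toSet n (msk B)) (ne A hA hAn') (ne B hB hBn)
    ?_ ?_ ?_ ?_ ?_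
  · rw [Finset.disjoint_left]
    intro i hi hj
    have := (hAn i (mem_toSet_msk.1 hi)).2 i (mem_toSet_msk.1 hj)
    simp at this
  · rintro F ⟨m, hm, rfl⟩ hs i hi
    have := sub_toSet (n := n) (h2 m ⟨hm, (sub_msk_iff hAn').2 hs⟩) hi
    simpa [mem_toSet_msk] using this
  · rintro F ⟨m, hm, rfl⟩ hs
    have := h1 m hm
    rw [(sub_msk_iff hBn).2 hs] at this
    exact absurd this (by simp)
  · intro b hb
    obtain ⟨F, ⟨hF, -⟩, hFe⟩ := h3 _ (List.mem_map.2 ⟨b, mem_toSet_msk.1 hb, rfl⟩)
    exact ⟨F, hF, by rw [hFe, toSet_new]⟩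
  · intro F
    constructor
    · rintro ⟨m, hm, rfl⟩
      rcases List.mem_append.1 hm with hm | hm
      · obtain ⟨a, ha, rfl⟩ := List.mem_map.1 hm
        exact Or.inr ⟨⟨a, hAn' a ha⟩, mem_toSet_msk.2 ha, toSet_new A B ⟨a, hAn' a ha⟩⟩
      · obtain ⟨hm, hs⟩ := List.mem_filter.1 hm
        refine Or.inl ⟨⟨m, hm, rfl⟩, fun h => ?_⟩
        rw [(sub_msk_iff hAn').2 h] at hs
        simp at hs
    · rintro (⟨⟨m, hm, rfl⟩, hs⟩ | ⟨a, ha, rfl⟩)
      · refine ⟨m, List.mem_append.2 (Or.inr (List.mem_filter.2 ⟨hm, ?_⟩)), rfl⟩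
        cases h : sub (msk A) m
        · rfl
        · exact absurd (sub_toSet h) hs
      · exact ⟨_, List.mem_append.2 (Or.inl (List.mem_map.2 ⟨a, mem_toSet_msk.1 ha, rfl⟩)),
          (toSet_new A B a).symm⟩

/-- evaluate a list, then continue -/
def force : List ℕ → List ℕ → (List ℕ → Bool) → Bool
  | [], acc, k => k acc
  | 0 :: xs, acc, k => force xs (0 :: acc) k
  | (y + 1) :: xs, acc, k => force xs (Nat.succ y :: acc) k

lemma force_eq (l acc : List ℕ) (k : List ℕ → Bool) : force l acc k = k (l.reverse ++ acc) := by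
  induction l generalizing acc with
  | nil => simp [force]
  | cons x xs ih => cases x <;> simp [force, ih]

/-- run a list of flips and compare with the final list -/
def run (n : ℕ) (E : List ℕ) : List (List ℕ × List ℕ) → List ℕ → Bool
  | [], L => L.all (fun F => E.any fun G => Nat.beq F G) && E.all fun F => L.any fun G => Nat.beq F G
  | m :: ms, L => okL n L m.1 m.2 && force (flipL L m.1 m.2) [] (run n E ms)

lemma run_homeo (n : ℕ) (E : List ℕ) (ms : List (List ℕ × List ℕ)) (L : List ℕ)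
    (h : run n E ms L = true) : Nonempty (real (cx n L) ≃ₜ real (cx n E)) := by
  induction ms generalizing L with
  | nil =>
    simp only [run, Bool.and_eq_true, List.all_eq_true, List.any_eq_true, Nat.beq_eq] at h
    have : cx n L = cx n E := by
      ext F
      constructor
      · rintro ⟨m, hm, rfl⟩
        obtain ⟨G, hG, rfl⟩ := h.1 m hm
        exact ⟨_, hG, rfl⟩
      · rintro ⟨m, hm, rfl⟩
        obtain ⟨G, hG, rfl⟩ := h.2 m hm
        exact ⟨_, hG, rfl⟩
    rw [this]
    exact ⟨Homeomorph.refl _⟩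
  | cons m ms ih =>
    simp only [run, Bool.and_eq_true, force_eq, List.append_nil] at h
    obtain ⟨e1⟩ := step_homeo n L _ _ h.1
    obtain ⟨e2⟩ := ih _ h.2
    have : cx n (flipL L m.1 m.2).reverse = cx n (flipL L m.1 m.2) := by
      ext F; simp [cx]
    rw [this] at e2
    exact ⟨e1.trans e2⟩

end Pool.Agent.P.MP_e24c78_co
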