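import Pool.Agent.P.MP_e24c78_co.Data

set_option autoImplicit false
set_option maxRecDepth 100000

namespace Pool.Agent.P.MP_e24c78_co

open Finset

theorem facets_nodup : facets.Nodup := by decide +kernel
theorem facets_lt : ∀ F ∈ facets, F < 2 ^ 51 := by decide +kernel
theorem facets_len : facets.length = 510 := by decide +kernel
theorem facets_card : ∀ F ∈ facets, (toSet 51 F).card = 4 := by decide +kernel

/-- edge degree test -/
def degOk : Bool := (List.range 51).all fun u =>
  force (facets.filter fun F => F.testBit u) [] fun L => (List.range 51).all fun v =>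
    (fun c => Nat.beq c 0 || Nat.ble 5 c) (L.filter fun F => F.testBit v).length

theorem degOk_true : degOk = true := by decide +kernel

lemma toSet_inj {n x y : ℕ} (hx : x < 2 ^ n) (hy : y < 2 ^ n) (h : toSet n x = toSet n y) :
    x = y := by
  apply Nat.eq_of_testBit_eq
  intro i
  by_cases hi : i < n
  · have : (⟨i, hi⟩ : Fin n) ∈ toSet n x ↔ (⟨i, hi⟩ : Fin n) ∈ toSet n y := by rw [h]
    rw [mem_toSet, mem_toSet] at this
    exact Bool.eq_iff_iff.2 this
  · have h2 : 2 ^ n ≤ 2 ^ i := Nat.pow_le_pow_right (by norm_num) (by omega)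
    rw [Nat.testBit_lt_two_pow (hx.trans_le h2), Nat.testBit_lt_two_pow (hy.trans_le h2)]

/-- the complex -/
def KK : Finset (Finset (Fin 51)) := (facets.map (toSet 51)).toFinset

lemma card_sub (L : List ℕ) (hL : L.Sublist facets) :
    (L.map (toSet 51)).toFinset.card = L.length := by
  rw [List.toFinset_card_of_nodup, List.length_map]
  exact (facets_nodup.sublist hL).map_on fun x hx y hy h =>
    toSet_inj (facets_lt x (hL.subset hx)) (facets_lt y (hL.subset hy)) h

lemma KK_card : KK.card = 510 := (card_sub _ (List.Sublist.refl _)).trans facets_len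

lemma mem_KK {F : Finset (Fin 51)} : F ∈ KK ↔ ∃ m ∈ facets, F = toSet 51 m := by
  simp [KK, eq_comm]

lemma KK_deg (e : Finset (Fin 51)) (he : e.card = 2) (h : ∃ F ∈ KK, e ⊆ F) :
    5 ≤ (KK.filter (e ⊆ ·)).card := by
  obtain ⟨u, v, -, rfl⟩ := Finset.card_eq_two.1 he
  have h1 := degOk_true
  simp only [degOk, List.all_eq_true, force_eq, List.append_nil, List.mem_range, Bool.or_eq_true,
    Nat.beq_eq, Nat.ble_eq, List.filter_reverse, List.length_reverse] at h1
  have h2 := h1 u u.2 v v.2
  have e1 : KK.filter (({u, v} : Finset (Fin 51)) ⊆ ·) =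
      (((facets.filter fun F => F.testBit u).filter fun F => F.testBit v).map
        (toSet 51)).toFinset := by
    ext F
    simp only [mem_filter, mem_KK, List.mem_toFinset, List.mem_map, List.mem_filter,
      Finset.insert_subset_iff, Finset.singleton_subset_iff]
    constructor
    · rintro ⟨⟨m, hm, rfl⟩, hu, hv⟩
      exact ⟨m, ⟨⟨hm, mem_toSet.1 hu⟩, mem_toSet.1 hv⟩, rfl⟩
    · rintro ⟨m, ⟨⟨hm, hu⟩, hv⟩, rfl⟩
      exact ⟨⟨m, hm, rfl⟩, mem_toSet.2 hu, mem_toSet.2 hv⟩
  have e2 := card_sub _ ((List.filter_sublist (p := fun F => F.testBit v)).trans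
    (List.filter_sublist (p := fun F => F.testBit u) (l := facets)))
  rw [← e2, ← e1] at h2
  rcases h2 with h2 | h2
  · obtain ⟨F, hF, hs⟩ := h
    rw [Finset.card_eq_zero] at h2
    have : F ∈ KK.filter (({u, v} : Finset (Fin 51)) ⊆ ·) := mem_filter.2 ⟨hF, hs⟩
    rw [h2] at this
    simp at this
  · exact h2

/-- vertices of the final simplex -/
def ff : Fin 5 → Fin 51 := ![11, 12, 34, 44, 48]

lemma KK_homeo : Nonempty (real (KK : Set (Finset (Fin 51))) ≃ₜ Metric.sphere (0 : E4) 1) := by
  obtain ⟨e1⟩ := run_homeo _ _ _ _ run_ok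
  obtain ⟨e3⟩ := bd5_homeo
  have hf : Function.Injective ff := by decide +kernel
  have h1 : ∀ m ∈ fin5, ∃ j, toSet 51 m = (univ.erase j).image ff := by decide +kernel
  have h2 : ∀ j, ∃ m ∈ fin5, (univ.erase j).image ff = toSet 51 m := by decide +kernel
  obtain ⟨e2⟩ := real_bd5 ff hf (cx 51 fin5) fun F =>
    ⟨fun ⟨m, hm, hF⟩ => hF ▸ h1 m hm, fun ⟨j, hF⟩ => hF ▸ h2 j⟩
  have : (KK : Set (Finset (Fin 51))) = cx 51 facets := by
    ext F
    exact mem_KK
  rw [this]
  exact ⟨(e1.trans e2).trans e3⟩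

end Pool.Agent.P.MP_e24c78_co
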