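import Mathlib

set_option autoImplicit false

namespace Pool.Agent.P.MP_e24c78_co

open Finset

variable {V : Type} [Fintype V] [DecidableEq V]

/-- geometric realisation of a family of facets -/
def real (K : Set (Finset V)) : Set (V → ℝ) :=
  {x | (∀ i, 0 ≤ x i) ∧ ∑ i, x i = 1 ∧ ∃ F ∈ K, ∀ i ∉ F, x i = 0}

/-- the flip map -/
noncomputable def mv (A B : Finset V) (hA : A.Nonempty) (x : V → ℝ) : V → ℝ :=
  fun i => x i - (if i ∈ A then A.inf' hA x else 0)
    + (if i ∈ B then (A.card : ℝ) / B.card * A.inf' hA x else 0)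

omit [Fintype V] in
lemma continuous_mv (A B : Finset V) (hA : A.Nonempty) : Continuous (mv A B hA) := by
  have h : Continuous fun x : V → ℝ => A.inf' hA x :=
    Continuous.finset_inf'_apply hA (fun i _ => continuous_apply i)
  refine continuous_pi fun i => ?_
  unfold mv
  refine ((continuous_apply i).sub ?_).add ?_
  · split_ifs
    · exact h
    · exact continuous_const
  · split_ifs
    · exact continuous_const.mul h
    · exact continuous_const

lemma mapsTo_mv (K K' : Set (Finset V)) (A B : Finset V) (hA : A.Nonempty) (hB : B.Nonempty)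
    (h1 : ∀ F ∈ K, A ⊆ F → F ⊆ A ∪ B) (h2 : ∀ F ∈ K, ¬ A ⊆ F → F ∈ K')
    (h3 : ∀ a ∈ A, A.erase a ∪ B ∈ K') : Set.MapsTo (mv A B hA) (real K) (real K') := by
  rintro x ⟨hx0, hx1, F, hF, hxF⟩
  have hm : 0 ≤ A.inf' hA x := (Finset.le_inf'_iff _ _).2 fun i _ => hx0 i
  have hBc : (B.card : ℝ) ≠ 0 := by exact_mod_cast hB.card_pos.ne'
  refine ⟨fun i => ?_, ?_, ?_⟩
  · unfold mv
    have h1 : (if i ∈ A then A.inf' hA x else 0) ≤ x i := by
      split_ifs with h
      · exact Finset.inf'_le _ h
      · exact hx0 i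
    have h2 : 0 ≤ (if i ∈ B then (A.card : ℝ) / B.card * A.inf' hA x else 0) := by
      split_ifs
      · positivity
      · exact le_rfl
    linarith
  · unfold mv
    rw [Finset.sum_add_distrib, Finset.sum_sub_distrib, hx1, Finset.sum_ite_mem,
      Finset.sum_ite_mem]
    simp only [univ_inter, sum_const, nsmul_eq_mul]
    field_simp
    ring
  · by_cases hAF : A ⊆ F
    · obtain ⟨a, ha, hae⟩ := Finset.exists_mem_eq_inf' hA x
      refine ⟨_, h3 a ha, fun i hi => ?_⟩
      simp only [mem_union, mem_erase, not_or, not_and] at hi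
      unfold mv
      rw [if_neg hi.2]
      by_cases hia : i = a
      · subst hia
        rw [if_pos ha, hae]; ring
      · have hiA := hi.1 hia
        rw [if_neg hiA, hxF i fun h => ?_]
        · ring
        · have := h1 F hF hAF h
          simp only [mem_union] at this
          tauto
    · obtain ⟨a, ha, haF⟩ := Finset.not_subset.1 hAF
      have h0 : A.inf' hA x = 0 := le_antisymm ((Finset.inf'_le _ ha).trans (hxF a haF).le) hm
      refine ⟨F, h2 F hF hAF, fun i hi => ?_⟩
      unfold mv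
      rw [h0, hxF i hi]; simp

lemma mv_mv (K : Set (Finset V)) (A B : Finset V) (hA : A.Nonempty) (hB : B.Nonempty)
    (hd : Disjoint A B) (h : ∀ F ∈ K, ¬ B ⊆ F) (x : V → ℝ) (hx : x ∈ real K) :
    mv B A hB (mv A B hA x) = x := by
  obtain ⟨hx0, -, F, hF, hxF⟩ := hx
  obtain ⟨b, hb, hbF⟩ := Finset.not_subset.1 (h F hF)
  have hAc : (A.card : ℝ) ≠ 0 := by exact_mod_cast hA.card_pos.ne'
  have hBc : (B.card : ℝ) ≠ 0 := by exact_mod_cast hB.card_pos.ne'
  have key : B.inf' hB (mv A B hA x) = (A.card : ℝ) / B.card * A.inf' hA x := by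
    apply le_antisymm
    · refine (Finset.inf'_le _ hb).trans (le_of_eq ?_)
      unfold mv
      rw [if_pos hb, if_neg (Finset.disjoint_right.1 hd hb), hxF b hbF]; ring
    · refine (Finset.le_inf'_iff _ _).2 fun i hi => ?_
      unfold mv
      rw [if_pos hi, if_neg (Finset.disjoint_right.1 hd hi)]
      linarith [hx0 i]
  funext i
  have e : (B.card : ℝ) / A.card * ((A.card : ℝ) / B.card * A.inf' hA x) = A.inf' hA x := by
    field_simp
  rw [mv, key, mv, e]
  ring

/-- a bistellar flip preserves the homeomorphism type -/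
lemma flip_homeo (K K' : Set (Finset V)) (A B : Finset V) (hA : A.Nonempty) (hB : B.Nonempty)
    (hd : Disjoint A B) (h1 : ∀ F ∈ K, A ⊆ F → F ⊆ A ∪ B) (h2 : ∀ F ∈ K, ¬ B ⊆ F)
    (h3 : ∀ b ∈ B, B.erase b ∪ A ∈ K)
    (hK : ∀ F, F ∈ K' ↔ (F ∈ K ∧ ¬ A ⊆ F) ∨ ∃ a ∈ A, F = A.erase a ∪ B) :
    Nonempty (real K ≃ₜ real K') := by
  have m1 : Set.MapsTo (mv A B hA) (real K) (real K') :=
    mapsTo_mv K K' A B hA hB h1 (fun F hF h => (hK F).2 (Or.inl ⟨hF, h⟩))
      (fun a ha => (hK _).2 (Or.inr ⟨a, ha, rfl⟩))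
  have m2 : Set.MapsTo (mv B A hB) (real K') (real K) := by
    refine mapsTo_mv K' K B A hB hA (fun F hF h => ?_) (fun F hF h => ?_) h3
    · rcases (hK F).1 hF with h' | ⟨a, ha, rfl⟩
      · exact absurd h (h2 F h'.1)
      · intro i hi
        simp only [mem_union, mem_erase] at hi ⊢
        tauto
    · rcases (hK F).1 hF with h' | ⟨a, ha, rfl⟩
      · exact h'.1
      · exact absurd Finset.subset_union_right h
  have h4 : ∀ F ∈ K', ¬ A ⊆ F := by
    intro F hF
    rcases (hK F).1 hF with h' | ⟨a, ha, rfl⟩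
    · exact h'.2
    · intro h
      have := h ha
      simp only [mem_union, mem_erase, ne_eq, not_true_eq_false, false_and, false_or] at this
      exact Finset.disjoint_left.1 hd ha this
  exact ⟨{ toFun := fun x => ⟨_, m1 x.2⟩
           invFun := fun y => ⟨_, m2 y.2⟩
           left_inv := fun x => Subtype.ext (mv_mv K A B hA hB hd h2 x x.2)
           right_inv := fun y => Subtype.ext (mv_mv K' B A hB hA hd.symm h4 y y.2)
           continuous_toFun := ((continuous_mv A B hA).comp continuous_subtype_val).subtype_mk _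
           continuous_invFun :=
            ((continuous_mv B A hB).comp continuous_subtype_val).subtype_mk _ }⟩

end Pool.Agent.P.MP_e24c78_co
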