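import Pool.Agent.P.MP_e24c78_co.Flip

set_option autoImplicit false

namespace Pool.Agent.P.MP_e24c78_co

open Finset

/-- boundary of the 4-simplex in barycentric coordinates -/
def bd5 : Set (Fin 5 → ℝ) := {x | (∀ i, 0 ≤ x i) ∧ ∑ i, x i = 1 ∧ ∃ i, x i = 0}

abbrev E4 := EuclideanSpace ℝ (Fin 4)

/-- sum-zero coordinates -/
def cc (z : E4) : Fin 5 → ℝ := Fin.cons (-(∑ j, z j)) (fun j => z j)

/-- gauge -/
noncomputable def pp (z : E4) : ℝ := -(univ.inf' univ_nonempty (cc z))

lemma sum_cc (z : E4) : ∑ i, cc z i = 0 := by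
  simp [cc, Fin.sum_univ_succ]

lemma continuous_cc : Continuous cc := by
  refine continuous_pi fun i => ?_
  refine Fin.cases ?_ (fun j => ?_) i
  · simp only [cc, Fin.cons_zero]; fun_prop
  · simp only [cc, Fin.cons_succ]; fun_prop

lemma continuous_pp : Continuous pp :=
  (Continuous.finset_inf'_apply univ_nonempty
    (fun i _ => (continuous_apply i).comp continuous_cc)).neg

lemma pp_pos (z : E4) (hz : z ≠ 0) : 0 < pp z := by
  by_contra h
  have h0 : ∀ i, 0 ≤ cc z i := fun i => by
    have := Finset.inf'_le (cc z) (mem_univ i)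
    unfold pp at h
    linarith
  have h1 := (Finset.sum_eq_zero_iff_of_nonneg (fun i _ => h0 i)).1 (sum_cc z)
  apply hz
  ext j
  simpa [cc] using h1 j.succ (mem_univ _)

lemma cc_smul (t : ℝ) (z : E4) (i : Fin 5) : cc (t • z) i = t * cc z i := by
  refine Fin.cases ?_ (fun j => ?_) i
  · simp [cc, Finset.mul_sum]
  · simp [cc]

/-- from barycentric coordinates to the vector -/
noncomputable def vv (x : Fin 5 → ℝ) : E4 := WithLp.toLp 2 fun j => 5 * x j.succ - 1

lemma cc_vv (x : Fin 5 → ℝ) (hx : ∑ i, x i = 1) (i : Fin 5) : cc (vv x) i = 5 * x i - 1 := by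
  refine Fin.cases ?_ (fun j => ?_) i
  · rw [Fin.sum_univ_succ] at hx
    simp only [cc, vv, Fin.cons_zero, Finset.sum_sub_distrib, ← Finset.mul_sum]
    simp only [sum_const, card_univ, Fintype.card_fin, nsmul_eq_mul]
    norm_num
    linarith
  · simp [cc, vv]

lemma vv_ne (x : Fin 5 → ℝ) (hx : x ∈ bd5) : vv x ≠ 0 := by
  obtain ⟨-, h1, i, hi⟩ := hx
  intro h
  have := cc_vv x h1 i
  have h2 := cc_smul 0 0 i
  rw [h, hi] at this
  simp only [smul_zero, zero_mul] at h2
  linarith

lemma bd5_homeo : Nonempty (bd5 ≃ₜ Metric.sphere (0 : E4) 1) := by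
  have hne : ∀ z : Metric.sphere (0 : E4) 1, (z : E4) ≠ 0 := fun z h => by
    have := z.2
    rw [h] at this
    simp at this
  have hin : ∀ z : Metric.sphere (0 : E4) 1, (fun i => (1 + cc z i / pp z) / 5) ∈ bd5 := by
    intro z
    have hp := pp_pos _ (hne z)
    refine ⟨fun i => ?_, ?_, ?_⟩
    · have := Finset.inf'_le (cc z) (mem_univ i)
      have h2 : -1 ≤ cc z i / pp z := by
        rw [le_div_iff₀ hp]; unfold pp; linarith
      linarith
    · rw [← Finset.sum_div, Finset.sum_add_distrib, ← Finset.sum_div, sum_cc]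
      simp
    · obtain ⟨a, -, hae⟩ := Finset.exists_mem_eq_inf' univ_nonempty (cc z)
      refine ⟨a, ?_⟩
      have : cc z a = - pp z := by unfold pp; rw [hae]; ring
      show (1 + cc z a / pp z) / 5 = 0
      rw [this]; field_simp; ring
  have hout : ∀ x : bd5, (‖vv x‖⁻¹ • vv x) ∈ Metric.sphere (0 : E4) 1 := by
    intro x
    have := norm_ne_zero_iff.2 (vv_ne x x.2)
    simp [norm_smul, this]
  refine ⟨{ toFun := fun x => ⟨_, hout x⟩
            invFun := fun z => ⟨_, hin z⟩
            left_inv := fun x => Subtype.ext ?_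
            right_inv := fun z => Subtype.ext ?_
            continuous_toFun := ?_
            continuous_invFun := ?_ }⟩
  · have hn : 0 < ‖vv x‖ := norm_pos_iff.2 (vv_ne x x.2)
    obtain ⟨h0, h1, a, ha⟩ := x.2
    have hp : pp (‖vv x‖⁻¹ • vv x) = ‖vv x‖⁻¹ := by
      unfold pp
      rw [neg_eq_iff_eq_neg]
      apply le_antisymm
      · refine (Finset.inf'_le _ (mem_univ a)).trans (le_of_eq ?_)
        rw [cc_smul, cc_vv _ h1, ha]; ring
      · refine (Finset.le_inf'_iff _ _).2 fun i _ => ?_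
        rw [cc_smul, cc_vv _ h1]
        have := mul_nonneg (inv_pos.2 hn).le (h0 i)
        linarith
    funext i
    show (1 + cc (‖vv x‖⁻¹ • vv x) i / pp (‖vv x‖⁻¹ • vv x)) / 5 = x.1 i
    rw [hp, cc_smul, cc_vv _ h1]
    field_simp
    ring
  · have hp := pp_pos _ (hne z)
    have hv : vv (fun i => (1 + cc z i / pp z) / 5) = (pp z)⁻¹ • (z : E4) := by
      ext j
      simp only [vv, cc, Fin.cons_succ, PiLp.smul_apply, smul_eq_mul]
      field_simp
      ring
    have hz : ‖(z : E4)‖ = 1 := by simpa using z.2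
    show ‖vv (fun i => (1 + cc z i / pp z) / 5)‖⁻¹ • vv (fun i => (1 + cc z i / pp z) / 5) = z
    rw [hv, norm_smul, hz, smul_smul, Real.norm_eq_abs, abs_of_pos (inv_pos.2 hp)]
    have : ((pp z)⁻¹ * 1)⁻¹ * (pp z)⁻¹ = 1 := by field_simp
    rw [this, one_smul]
  · have hv0 : Continuous vv := by
      unfold vv
      fun_prop
    have hv : Continuous fun x : bd5 => vv x := hv0.comp continuous_subtype_val
    exact ((hv.norm.inv₀ fun x => norm_ne_zero_iff.2 (vv_ne x x.2)).smul hv).subtype_mk _
  · refine Continuous.subtype_mk (continuous_pi fun i => ?_) _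
    refine (continuous_const.add (Continuous.div ?_ ?_ fun z => (pp_pos _ (hne z)).ne')).div_const _
    · exact (continuous_apply i).comp (continuous_cc.comp continuous_subtype_val)
    · exact continuous_pp.comp continuous_subtype_val

variable {V : Type} [Fintype V] [DecidableEq V]

lemma real_bd5 (f : Fin 5 → V) (hf : Function.Injective f) (K : Set (Finset V))
    (hK : ∀ F, F ∈ K ↔ ∃ j, F = (univ.erase j).image f) : Nonempty (real K ≃ₜ bd5) := by
  have hsum : ∀ x : V → ℝ, (∀ i, i ∉ Set.range f → x i = 0) → ∑ j, x (f j) = ∑ i, x i :=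
    fun x hx => Fintype.sum_of_injective f hf _ _ hx (fun _ => rfl)
  have hout : ∀ x : real K, ∀ i, i ∉ Set.range f → x.1 i = 0 := by
    rintro ⟨x, -, -, F, hF, hx⟩ i hi
    obtain ⟨j, rfl⟩ := (hK F).1 hF
    refine hx i fun h => hi ?_
    obtain ⟨a, -, rfl⟩ := Finset.mem_image.1 h
    exact ⟨a, rfl⟩
  have h1 : ∀ x : real K, (fun j => x.1 (f j)) ∈ bd5 := by
    intro x
    refine ⟨fun j => x.2.1 _, by rw [hsum _ (hout x)]; exact x.2.2.1, ?_⟩
    obtain ⟨F, hF, hx⟩ := x.2.2.2
    obtain ⟨j, rfl⟩ := (hK F).1 hF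
    refine ⟨j, hx _ fun h => ?_⟩
    obtain ⟨a, ha, hae⟩ := Finset.mem_image.1 h
    exact (Finset.mem_erase.1 ha).1 (hf hae)
  have hext : ∀ (y : Fin 5 → ℝ) i, i ∉ Set.range f → Function.extend f y 0 i = 0 :=
    fun y i hi => by rw [Function.extend_apply' _ _ _ hi]; rfl
  have h2 : ∀ y : bd5, Function.extend f y.1 0 ∈ real K := by
    rintro ⟨y, h0, h1, j, hj⟩
    refine ⟨fun i => ?_, ?_, _, (hK _).2 ⟨j, rfl⟩, fun i hi => ?_⟩
    · by_cases hi : i ∈ Set.range f
      · obtain ⟨a, rfl⟩ := hi
        rw [hf.extend_apply]; exact h0 a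
      · rw [hext _ _ hi]
    · rw [← hsum _ (hext y)]
      simpa [hf.extend_apply] using h1
    · by_cases hi' : i ∈ Set.range f
      · obtain ⟨a, rfl⟩ := hi'
        rw [hf.extend_apply]
        by_contra h
        exact hi (Finset.mem_image_of_mem _ (Finset.mem_erase.2 ⟨fun e => h (e ▸ hj), mem_univ _⟩))
      · exact hext _ _ hi'
  refine ⟨{ toFun := fun x => ⟨_, h1 x⟩
            invFun := fun y => ⟨_, h2 y⟩
            left_inv := fun x => Subtype.ext ?_
            right_inv := fun y => Subtype.ext ?_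
            continuous_toFun := ?_
            continuous_invFun := ?_ }⟩
  · funext i
    by_cases hi : i ∈ Set.range f
    · obtain ⟨a, rfl⟩ := hi
      exact hf.extend_apply _ _ _
    · exact (hext _ _ hi).trans (hout x i hi).symm
  · funext j
    exact hf.extend_apply _ _ _
  · refine Continuous.subtype_mk (continuous_pi fun j => ?_) _
    exact (continuous_apply (f j)).comp continuous_subtype_val
  · refine Continuous.subtype_mk (continuous_pi fun i => ?_) _
    by_cases hi : i ∈ Set.range f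
    · obtain ⟨a, rfl⟩ := hi
      simp only [hf.extend_apply]
      exact (continuous_apply a).comp continuous_subtype_val
    · simp only [hext _ _ hi]
      exact continuous_const

end Pool.Agent.P.MP_e24c78_co
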